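import Mathlib
import Pool.Agent.Helper75.SNF.Defs
import Pool.Agent.Helper75.SNF.Defs2
import Pool.Agent.Helper75.SNF.Explicit

set_option autoImplicit false

namespace Pool.Agent.Results.MP_518fb6_al.Explicit

open Pool.Agent.Helper75.SNF

/-- Determination of the formations of finite groups all of whose subformations (including the
formation itself) are closed under normal subgroups, with the condition on quasisimple groups in
the form of a finite test. -/
theorem result (F : GroupClass) (hF : IsFormation F) :
    AllSubformationsSnClosed F ↔
      Cond1 F ∧ Cond2 F ∧ Cond3 F ∧ CondQuasisimple F ∧ CondOther F :=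
  main_explicit hF

end Pool.Agent.Results.MP_518fb6_al.Explicit
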